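import Pool.Agent.Lib.MP_cb399b_co.Reach

set_option autoImplicit false

namespace Pool.Agent.Results.MP_cb399b_co.AtMostRankChanges

/-- For a finite matroid of rank `r`, every partition `P` of `E \ x` into `k` bases can be turned
into a partition `Q` of `E \ y` into `k` bases by changing at most `r` of the bases, provided
`E \ y` has a partition into `k` bases. -/
theorem result :
    ∀ (α : Type) (M : Matroid α) (k r : ℕ), M.E.Finite → M.eRank = (r : ℕ∞) →
      ∀ x y : α, x ∈ M.E → y ∈ M.E →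
      ∀ P : Fin k → Set α, (∀ i, M.IsBase (P i)) → (∀ i j, i ≠ j → Disjoint (P i) (P j)) →
        (⋃ i, P i) = M.E \ {x} →
      (∃ B : Fin k → Set α, (∀ i, M.IsBase (B i)) ∧
          (∀ i j, i ≠ j → Disjoint (B i) (B j)) ∧ (⋃ i, B i) = M.E \ {y}) →
      ∃ Q : Fin k → Set α, (∀ i, M.IsBase (Q i)) ∧
        (∀ i j, i ≠ j → Disjoint (Q i) (Q j)) ∧ (⋃ i, Q i) = M.E \ {y} ∧
        {i | Q i ≠ P i}.ncard ≤ r := by
  rintro α M k r hE hr x y hx - P h1 h2 h3 ⟨B, hB⟩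
  obtain ⟨Q, ⟨q1, q2, q3⟩, q4⟩ :=
    Pool.Agent.Lib.MP_cb399b_co.Reach.few_changes hE hr hx ⟨h1, h2, h3⟩ hB
  exact ⟨Q, q1, q2, q3, q4⟩

end Pool.Agent.Results.MP_cb399b_co.AtMostRankChanges
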