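import Pool.Agent.Lib.MP_cb399b_co.Counter

set_option autoImplicit false

namespace Pool.Agent.Results.MP_cb399b_co.RankFourCounterexample

/-- `{B₁, B₂}` is a partition of `S` into two bases of `M`. -/
def IsBasePartition {α : Type} (M : Matroid α) (S B₁ B₂ : Set α) : Prop :=
  M.IsBase B₁ ∧ M.IsBase B₂ ∧ Disjoint B₁ B₂ ∧ B₁ ∪ B₂ = S

/-- There is a matroid of rank `4` on `9 = 2 * 4 + 1` elements with elements `x`, `y` such that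
both `E \ x` and `E \ y` split into two bases, but no such splittings share a basis. -/
theorem result :
    ∃ (M : Matroid (Fin 9)) (x y : Fin 9), M.E = Set.univ ∧ M.eRank = 4 ∧
      (∃ B₁ B₂, IsBasePartition M (M.E \ {x}) B₁ B₂) ∧
      (∃ C₁ C₂, IsBasePartition M (M.E \ {y}) C₁ C₂) ∧
      ∀ B₁ B₂ C₁ C₂, IsBasePartition M (M.E \ {x}) B₁ B₂ →
        IsBasePartition M (M.E \ {y}) C₁ C₂ →
        B₁ ≠ C₁ ∧ B₁ ≠ C₂ ∧ B₂ ≠ C₁ ∧ B₂ ≠ C₂ := by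
  have hU : ∀ B : Fin 2 → Set (Fin 9), (⋃ i, B i) = B 0 ∪ B 1 := by
    intro B
    ext e
    simp [Fin.exists_fin_two]
  refine ⟨Pool.Agent.Lib.MP_cb399b_co.M, 7, 8, rfl, Pool.Agent.Lib.MP_cb399b_co.M_eRank,
    ?_, ?_, ?_⟩
  · obtain ⟨B, h1, h2, h3⟩ := Pool.Agent.Lib.MP_cb399b_co.part_x
    exact ⟨B 0, B 1, h1 0, h1 1, h2 0 1 (by decide), by rw [← hU, h3]⟩
  · obtain ⟨B, h1, h2, h3⟩ := Pool.Agent.Lib.MP_cb399b_co.part_y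
    exact ⟨B 0, B 1, h1 0, h1 1, h2 0 1 (by decide), by rw [← hU, h3]⟩
  · rintro B₁ B₂ C₁ C₂ ⟨hB₁, hB₂, -, hB⟩ ⟨hC₁, hC₂, -, hC⟩
    have key := Pool.Agent.Lib.MP_cb399b_co.no_common ![B₁, B₂] ![C₁, C₂]
      (Fin.forall_fin_two.mpr ⟨hB₁, hB₂⟩) (by rw [hU]; exact hB)
      (Fin.forall_fin_two.mpr ⟨hC₁, hC₂⟩) (by rw [hU]; exact hC)
    exact ⟨key 0 0, key 0 1, key 1 0, key 1 1⟩

end Pool.Agent.Results.MP_cb399b_co.RankFourCounterexample
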